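import Pool.Agent.R921.SP.Defs

/-!
Part D of project SP (MP_37896c_gt): a good family exists.  Binary corner cutting: a triangle
`(p, v, q)` with corner `v` is cut by the segment from `p` to the midpoint `m` of `v q`; first the
triangle `(m, v, p)` is removed (recursively), then the triangle `(q, m, p)`.
-/

open MeasureTheory Metric Set Filter Topology
open scoped ENNReal

namespace Pool.Agent.R921.SP.PD

/-- the midpoint -/
noncomputable def mid (v q : Pl) : Pl := (1 / 2 : ℝ) • (v + q)

/-- the triangle with vertices `p, v, q` -/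
def tri (p v q : Pl) : Set Pl :=
  {x | ∃ a b : ℝ, 0 ≤ a ∧ 0 ≤ b ∧ a + b ≤ 1 ∧ x = v + a • (p - v) + b • (q - v)}

theorem seg_sub_tri (p v q : Pl) : segment ℝ p q ⊆ tri p v q := by
  rintro x ⟨a, b, ha, hb, hab, rfl⟩
  refine ⟨a, b, ha, hb, hab.le, ?_⟩
  have : v = (a + b) • v := by rw [hab, one_smul]
  rw [smul_sub, smul_sub]
  conv_rhs => rw [this]
  have hb' : b = 1 - a := by linarith
  subst hb'
  module

theorem tri_one (p v q : Pl) : tri (mid v q) v p ⊆ tri p v q := by
  rintro x ⟨a, b, ha, hb, hab, rfl⟩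
  refine ⟨b, a / 2, hb, by positivity, by linarith, ?_⟩
  unfold mid
  module

theorem tri_two (p v q : Pl) : tri q (mid v q) p ⊆ tri p v q := by
  rintro x ⟨a, b, ha, hb, hab, rfl⟩
  refine ⟨b, 1 / 2 + a / 2 - b / 2, hb, by linarith, by linarith, ?_⟩
  unfold mid
  module

theorem tri_split (p v q : Pl) : tri p v q ⊆ tri (mid v q) v p ∪ tri q (mid v q) p := by
  rintro x ⟨a, b, ha, hb, hab, rfl⟩
  rcases le_total (a + 2 * b) 1 with h | h
  · left
    refine ⟨2 * b, a, by positivity, ha, by linarith, ?_⟩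
    unfold mid
    module
  · right
    refine ⟨2 * b - 1 + a, a, by linarith, ha, by linarith, ?_⟩
    unfold mid
    module

theorem tri_union (p v q : Pl) : tri (mid v q) v p ∪ tri q (mid v q) p = tri p v q :=
  Subset.antisymm (union_subset (tri_one p v q) (tri_two p v q)) (tri_split p v q)

theorem convex_tri (p v q : Pl) : Convex ℝ (tri p v q) := by
  rintro x ⟨a, b, ha, hb, hab, rfl⟩ y ⟨c, d, hc, hd, hcd, rfl⟩ s t hs ht hst
  refine ⟨s * a + t * c, s * b + t * d, by positivity, by positivity, ?_, ?_⟩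
  · have : s * (a + b) + t * (c + d) ≤ s * 1 + t * 1 :=
      add_le_add (mul_le_mul_of_nonneg_left hab hs) (mul_le_mul_of_nonneg_left hcd ht)
    linarith
  · have hs' : s = 1 - t := by linarith
    subst hs'
    module

theorem isCompact_tri (p v q : Pl) : IsCompact (tri p v q) := by
  have h1 : IsCompact {y : ℝ × ℝ | 0 ≤ y.1 ∧ 0 ≤ y.2 ∧ y.1 + y.2 ≤ 1} := by
    refine IsCompact.of_isClosed_subset (isCompact_Icc (a := ((0, 0) : ℝ × ℝ)) (b := (1, 1))) ?_ ?_
    · refine (isClosed_le continuous_const continuous_fst).inter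
        ((isClosed_le continuous_const continuous_snd).inter
        (isClosed_le (continuous_fst.add continuous_snd) continuous_const))
    · rintro ⟨a, b⟩ ⟨ha, hb, hab⟩
      simp only at ha hb hab
      exact ⟨⟨ha, hb⟩, ⟨by simp only; linarith, by simp only; linarith⟩⟩
  have h2 : Continuous fun y : ℝ × ℝ => v + y.1 • (p - v) + y.2 • (q - v) := by fun_prop
  have h3 := h1.image h2
  convert h3 using 1
  ext x
  constructor
  · rintro ⟨a, b, ha, hb, hab, rfl⟩
    exact ⟨(a, b), ⟨ha, hb, hab⟩, rfl⟩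
  · rintro ⟨⟨a, b⟩, ⟨ha, hb, hab⟩, rfl⟩
    exact ⟨a, b, ha, hb, hab, rfl⟩

/-- gluing lemma -/
theorem glue (p v q : Pl) (Q : Set Pl) (hQ : Convex ℝ Q) (h1 : segment ℝ (mid v q) p ⊆ Q)
    (h2 : Q ⊆ tri (mid v q) v p) : Convex ℝ (Q ∪ tri q (mid v q) p) := by
  have key : ∀ x ∈ Q, ∀ y ∈ tri q (mid v q) p, segment ℝ x y ⊆ Q ∪ tri q (mid v q) p := by
    intro x hx y hy
    have hmp : segment ℝ (mid v q) p ⊆ tri q (mid v q) p := by
      rintro z ⟨a, b, ha, hb, hab, rfl⟩
      refine ⟨0, b, le_rfl, hb, by linarith, ?_⟩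
      have ha' : a = 1 - b := by linarith
      subst ha'
      module
    -- a point of the segment on the chord
    have hz : ∃ z ∈ segment ℝ x y, z ∈ segment ℝ (mid v q) p := by
      obtain ⟨a, b, ha, hb, hab, rfl⟩ := h2 hx
      obtain ⟨c, d, hc, hd, hcd, rfl⟩ := hy
      by_cases h0 : (1 - a - b) + c = 0
      · refine ⟨_, left_mem_segment ℝ _ _, a, b, ha, hb, by linarith, ?_⟩
        have hb' : b = 1 - a := by linarith
        subst hb'
        module
      · have hpos : 0 < (1 - a - b) + c := lt_of_le_of_ne (by linarith) (Ne.symm h0)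
        set w := (1 - a - b) + c with hw
        set t := (1 - a - b) / w with ht
        have ht0 : 0 ≤ t := div_nonneg (by linarith) hpos.le
        have ht1 : 0 ≤ 1 - t := by
          rw [ht, sub_nonneg, div_le_one hpos]; linarith
        have htw : (1 - t) * (1 - a - b) = t * c := by
          rw [ht]; field_simp; rw [hw]; ring
        refine ⟨(1 - t) • (v + a • (mid v q - v) + b • (p - v)) +
          t • (mid v q + c • (q - mid v q) + d • (p - mid v q)), ⟨1 - t, t, ht1, ht0, by ring, rfl⟩,
          (1 - t) * a + t * (1 - c - d + 2 * c), (1 - t) * b + t * d, ?_, ?_, ?_, ?_⟩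
        · have : 0 ≤ 1 - c - d + 2 * c := by linarith
          positivity
        · positivity
        · nlinarith [htw]
        · have hv : v = (2 : ℝ) • mid v q - q := by unfold mid; module
          have hq : q = (2 : ℝ) • mid v q - v := by unfold mid; module
          set m := mid v q with hm
          rw [hq]
          have e1 : (1 - t) • (v + a • (m - v) + b • (p - v)) +
              t • (m + c • ((2 : ℝ) • m - v - m) + d • (p - m)) =
              ((1 - t) * a + t * (1 - c - d + 2 * c)) • m + ((1 - t) * b + t * d) • p +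
              ((1 - t) * (1 - a - b) - t * c) • v := by module
          rw [e1, htw, sub_self, zero_smul, add_zero]
    obtain ⟨z, hz1, hz2⟩ := hz
    have hseg : segment ℝ x y ⊆ segment ℝ x z ∪ segment ℝ z y := by
      obtain ⟨a, b, ha, hb, hab, rfl⟩ := hz1
      rintro _ ⟨c, d, hc, hd, hcd, rfl⟩
      have ha' : a = 1 - b := by linarith
      have hc' : c = 1 - d := by linarith
      subst ha'; subst hc'
      rcases le_total d b with h | h
      · left
        rcases eq_or_lt_of_le hb with h0 | h0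
        · have : d = 0 := by linarith
          subst this
          refine ⟨1, 0, zero_le_one, le_rfl, by ring, ?_⟩
          module
        · refine ⟨1 - d / b, d / b, ?_, by positivity, by ring, ?_⟩
          · rw [sub_nonneg, div_le_one h0]; exact h
          · have e : d / b * b = d := by field_simp
            have e2 : (1 - d / b) • x + (d / b) • ((1 - b) • x + b • y) =
                (1 - d / b * b) • x + (d / b * b) • y := by module
            rw [e2, e]
      · right
        rcases eq_or_lt_of_le (show b ≤ 1 by linarith) with h0 | h0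
        · have : d = 1 := by linarith
          subst this
          refine ⟨0, 1, le_rfl, zero_le_one, by ring, ?_⟩
          module
        · have h1b : 0 < 1 - b := by linarith
          refine ⟨(1 - d) / (1 - b), 1 - (1 - d) / (1 - b), by positivity, ?_, by ring, ?_⟩
          · rw [sub_nonneg, div_le_one h1b]; linarith
          · have e : (1 - d) / (1 - b) * (1 - b) = 1 - d := by field_simp
            have e2 : ((1 - d) / (1 - b)) • ((1 - b) • x + b • y) +
                (1 - (1 - d) / (1 - b)) • y =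
                ((1 - d) / (1 - b) * (1 - b)) • x +
                (1 - (1 - d) / (1 - b) * (1 - b)) • y := by module
            rw [e2, e]
            congr 2
            ring
    intro w hw
    rcases hseg hw with h | h
    · left
      exact hQ.segment_subset hx (h1 hz2) h
    · right
      exact (convex_tri _ _ _).segment_subset (hmp hz2) hy h
  rw [convex_iff_segment_subset]
  rintro x (hx | hx) y (hy | hy)
  · exact (hQ.segment_subset hx hy).trans subset_union_left
  · exact key x hx y hy
  · rw [segment_symm]; exact key y hy x hx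
  · exact ((convex_tri _ _ _).segment_subset hx hy).trans subset_union_right

/-- the partially cut triangle at time `j / 2 ^ k` -/
noncomputable def D : ℕ → ℕ → Pl → Pl → Pl → Set Pl
  | 0, j, p, v, q => if j = 0 then tri p v q else segment ℝ p q
  | k + 1, j, p, v, q => if j < 2 ^ k then D k j (mid v q) v p ∪ tri q (mid v q) p
      else D k (j - 2 ^ k) q (mid v q) p

/-- the triangle which is cut between the times `j / 2 ^ k` and `(j + 1) / 2 ^ k` -/
noncomputable def cell : ℕ → ℕ → Pl → Pl → Pl → Pl × Pl × Pl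
  | 0, _, p, v, q => (p, v, q)
  | k + 1, j, p, v, q => if j < 2 ^ k then cell k j (mid v q) v p
      else cell k (j - 2 ^ k) q (mid v q) p

theorem D_lt {k j : ℕ} (h : j < 2 ^ k) (p v q : Pl) :
    D (k + 1) j p v q = D k j (mid v q) v p ∪ tri q (mid v q) p := by
  rw [D, if_pos h]

theorem D_ge {k j : ℕ} (h : ¬ j < 2 ^ k) (p v q : Pl) :
    D (k + 1) j p v q = D k (j - 2 ^ k) q (mid v q) p := by
  rw [D, if_neg h]

theorem seg_sub_D (k : ℕ) : ∀ (j : ℕ) (p v q : Pl), segment ℝ p q ⊆ D k j p v q := by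
  induction k with
  | zero =>
    intro j p v q
    rw [D]
    split_ifs
    · exact seg_sub_tri p v q
    · exact Subset.rfl
  | succ k ih =>
    intro j p v q
    by_cases h : j < 2 ^ k
    · rw [D_lt h, segment_symm]
      exact (seg_sub_tri q (mid v q) p).trans subset_union_right
    · rw [D_ge h, segment_symm]
      exact ih _ _ _ _

theorem D_sub_tri (k : ℕ) : ∀ (j : ℕ) (p v q : Pl), D k j p v q ⊆ tri p v q := by
  induction k with
  | zero =>
    intro j p v q
    rw [D]
    split_ifs
    · exact Subset.rfl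
    · exact seg_sub_tri p v q
  | succ k ih =>
    intro j p v q
    by_cases h : j < 2 ^ k
    · rw [D_lt h]
      exact union_subset ((ih _ _ _ _).trans (tri_one p v q)) (tri_two p v q)
    · rw [D_ge h]
      exact (ih _ _ _ _).trans (tri_two p v q)

theorem convex_D (k : ℕ) : ∀ (j : ℕ) (p v q : Pl), Convex ℝ (D k j p v q) := by
  induction k with
  | zero =>
    intro j p v q
    rw [D]
    split_ifs
    · exact convex_tri p v q
    · exact convex_segment p q
  | succ k ih =>
    intro j p v q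
    by_cases h : j < 2 ^ k
    · rw [D_lt h]
      exact glue p v q _ (ih _ _ _ _) (seg_sub_D _ _ _ _ _) (D_sub_tri _ _ _ _ _)
    · rw [D_ge h]
      exact ih _ _ _ _

theorem isCompact_seg (p q : Pl) : IsCompact (segment ℝ p q) := by
  have h1 : Continuous fun t : ℝ => (1 - t) • p + t • q := by fun_prop
  have h3 := (isCompact_Icc (a := (0 : ℝ)) (b := 1)).image h1
  rwa [← segment_eq_image] at h3

theorem isCompact_D (k : ℕ) : ∀ (j : ℕ) (p v q : Pl), IsCompact (D k j p v q) := by
  induction k with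
  | zero =>
    intro j p v q
    rw [D]
    split_ifs
    · exact isCompact_tri p v q
    · exact isCompact_seg p q
  | succ k ih =>
    intro j p v q
    by_cases h : j < 2 ^ k
    · rw [D_lt h]
      exact (ih _ _ _ _).union (isCompact_tri _ _ _)
    · rw [D_ge h]
      exact ih _ _ _ _

theorem D_zero (k : ℕ) : ∀ (p v q : Pl), D k 0 p v q = tri p v q := by
  induction k with
  | zero => intro p v q; rw [D, if_pos rfl]
  | succ k ih =>
    intro p v q
    rw [D_lt (by positivity), ih, tri_union]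

theorem D_end (k : ℕ) : ∀ (j : ℕ) (p v q : Pl), 2 ^ k ≤ j → D k j p v q = segment ℝ p q := by
  induction k with
  | zero =>
    intro j p v q h
    rw [D, if_neg (by intro h'; rw [h'] at h; simp at h)]
  | succ k ih =>
    intro j p v q h
    rw [pow_succ] at h
    rw [D_ge (by omega), ih _ _ _ _ (by omega), segment_symm]

theorem D_succ_sub (k : ℕ) : ∀ (j : ℕ) (p v q : Pl), D k (j + 1) p v q ⊆ D k j p v q := by
  induction k with
  | zero =>
    intro j p v q
    rw [D, D, if_neg (Nat.succ_ne_zero j)]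
    split_ifs
    · exact seg_sub_tri p v q
    · exact Subset.rfl
  | succ k ih =>
    intro j p v q
    by_cases h : j + 1 < 2 ^ k
    · rw [D_lt h, D_lt (by omega)]
      exact union_subset_union_left _ (ih _ _ _ _)
    · by_cases h' : j < 2 ^ k
      · rw [D_lt h', D_ge h]
        exact (D_sub_tri _ _ _ _ _).trans subset_union_right
      · rw [D_ge h, D_ge h']
        have : j + 1 - 2 ^ k = (j - 2 ^ k) + 1 := by omega
        rw [this]
        exact ih _ _ _ _

theorem D_anti (k : ℕ) (p v q : Pl) : Antitone fun j => D k j p v q :=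
  antitone_nat_of_succ_le fun j => D_succ_sub k j p v q

theorem D_double (k : ℕ) : ∀ (j : ℕ) (p v q : Pl), D (k + 1) (2 * j) p v q = D k j p v q := by
  induction k with
  | zero =>
    intro j p v q
    rcases Nat.eq_zero_or_pos j with h | h
    · subst h
      rw [mul_zero, D_zero, D_zero]
    · rw [D_end 1 _ _ _ _ (by omega), D_end 0 _ _ _ _ (by rw [pow_zero]; exact h)]
  | succ k ih =>
    intro j p v q
    by_cases h : j < 2 ^ k
    · rw [D_lt (k := k + 1) (by rw [pow_succ]; omega), D_lt h, ih]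
    · rw [D_ge (k := k + 1) (by rw [pow_succ]; omega), D_ge h]
      have : 2 * j - 2 ^ (k + 1) = 2 * (j - 2 ^ k) := by rw [pow_succ]; omega
      rw [this, ih]

theorem D_shift (k m : ℕ) (j : ℕ) (p v q : Pl) : D (k + m) (2 ^ m * j) p v q = D k j p v q := by
  induction m with
  | zero => simp
  | succ m ih =>
    rw [← ih, ← D_double (k + m), ← mul_assoc, ← pow_succ', add_assoc]

theorem D_mono {k j k' j' : ℕ} (h : j' * 2 ^ k ≤ j * 2 ^ k') (p v q : Pl) :
    D k j p v q ⊆ D k' j' p v q := by
  rw [← D_shift k k' j, ← D_shift k' k j', add_comm k' k]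
  exact D_anti (k + k') p v q (by rw [mul_comm (2 ^ k), mul_comm (2 ^ k')]; exact h)

/-- the triangle of a triple -/
def triC (c : Pl × Pl × Pl) : Set Pl := tri c.1 c.2.1 c.2.2

theorem D_step (k : ℕ) : ∀ (j : ℕ) (p v q : Pl), j < 2 ^ k →
    D k j p v q ⊆ D k (j + 1) p v q ∪ triC (cell k j p v q) := by
  induction k with
  | zero =>
    intro j p v q h
    have h0 : j = 0 := by simpa using h
    subst h0
    rw [D_zero, cell]
    exact subset_union_right
  | succ k ih =>
    intro j p v q h
    rw [pow_succ] at h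
    by_cases h' : j < 2 ^ k
    · rw [D_lt h', cell, if_pos h']
      by_cases h1 : j + 1 < 2 ^ k
      · rw [D_lt h1]
        refine union_subset ((ih _ _ _ _ h').trans ?_) ?_
        · exact union_subset_union_left _ subset_union_left
        · exact subset_union_right.trans subset_union_left
      · have h2 : j + 1 = 2 ^ k := by omega
        rw [D_ge h1, h2, Nat.sub_self, D_zero]
        refine union_subset ((ih _ _ _ _ h').trans ?_) subset_union_left
        rw [h2, D_end k _ _ _ _ le_rfl]
        refine union_subset_union_left _ ?_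
        have h3 : segment ℝ (mid v q) p ⊆ tri q (mid v q) p := by
          rintro z ⟨a, b, ha, hb, hab, rfl⟩
          refine ⟨0, b, le_rfl, hb, by linarith, ?_⟩
          have ha' : a = 1 - b := by linarith
          subst ha'
          module
        exact h3
    · rw [D_ge h', cell, if_neg h', D_ge (by omega)]
      have h2 : j + 1 - 2 ^ k = (j - 2 ^ k) + 1 := by omega
      rw [h2]
      exact ih _ _ _ _ (by omega)

/-! ### areas -/

/-- twice the signed area -/
noncomputable def cross (u w : Pl) : ℝ := u 0 * w 1 - w 0 * u 1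

/-- the standard triangle -/
def T0 : Set Pl := {y | 0 ≤ y 0 ∧ 0 ≤ y 1 ∧ y 0 + y 1 ≤ 1}

/-- the linear map with columns `u, w` -/
noncomputable def lin (u w : Pl) : Pl →ₗ[ℝ] Pl :=
  Matrix.toLin (EuclideanSpace.basisFun (Fin 2) ℝ).toBasis
    (EuclideanSpace.basisFun (Fin 2) ℝ).toBasis !![u 0, w 0; u 1, w 1]

theorem lin_apply (u w y : Pl) : lin u w y = y 0 • u + y 1 • w := by
  have h0 : ⇑((EuclideanSpace.basisFun (Fin 2) ℝ).toBasis.repr y) = fun j => y j := by
    ext j
    simp
  have h1 : lin u w y = ∑ i, (!![u 0, w 0; u 1, w 1] : Matrix (Fin 2) (Fin 2) ℝ).mulVec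
      (fun j => y j) i • EuclideanSpace.basisFun (Fin 2) ℝ i := by
    unfold lin
    rw [Matrix.toLin_apply, h0]
    simp
  rw [h1]
  ext i
  fin_cases i <;> simp [Matrix.mulVec, dotProduct, Fin.sum_univ_two] <;> ring

theorem det_lin (u w : Pl) : LinearMap.det (lin u w) = cross u w := by
  unfold lin cross
  rw [LinearMap.det_toLin, Matrix.det_fin_two_of]

theorem volume_tri (p v q : Pl) :
    volume (tri p v q) = ENNReal.ofReal |cross (p - v) (q - v)| * volume T0 := by
  have h1 : tri p v q = (fun x => v + x) '' (lin (p - v) (q - v) '' T0) := by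
    rw [image_image]
    ext x
    constructor
    · rintro ⟨a, b, ha, hb, hab, rfl⟩
      refine ⟨!₂[a, b], ⟨by simpa using ha, by simpa using hb, by simpa using hab⟩, ?_⟩
      simp only [lin_apply]
      simp [add_assoc]
    · rintro ⟨y, ⟨h1, h2, h3⟩, rfl⟩
      refine ⟨y 0, y 1, h1, h2, h3, ?_⟩
      simp only [lin_apply, add_assoc]
  rw [h1, image_add_left, measure_preimage_add, Measure.addHaar_image_linearMap, det_lin]

theorem cross_one (p v q : Pl) :
    |cross (mid v q - v) (p - v)| = |cross (p - v) (q - v)| / 2 := by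
  have h : cross (mid v q - v) (p - v) = -(cross (p - v) (q - v) / 2) := by
    unfold cross mid
    simp
    ring
  rw [h, abs_neg, abs_div, abs_two]

theorem cross_two (p v q : Pl) :
    |cross (q - mid v q) (p - mid v q)| = |cross (p - v) (q - v)| / 2 := by
  have h : cross (q - mid v q) (p - mid v q) = -(cross (p - v) (q - v) / 2) := by
    unfold cross mid
    simp
    ring
  rw [h, abs_neg, abs_div, abs_two]

theorem T0_pos : 0 < volume T0 := by
  have c0 : Continuous fun y : Pl => y 0 := by fun_prop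
  have c1 : Continuous fun y : Pl => y 1 := by fun_prop
  have h1 : IsOpen {y : Pl | 0 < y 0 ∧ 0 < y 1 ∧ y 0 + y 1 < 1} :=
    (isOpen_lt continuous_const c0).inter
      ((isOpen_lt continuous_const c1).inter
      (isOpen_lt (c0.add c1) continuous_const))
  have h2 : {y : Pl | 0 < y 0 ∧ 0 < y 1 ∧ y 0 + y 1 < 1}.Nonempty :=
    ⟨!₂[1 / 4, 1 / 4], by simp; norm_num⟩
  refine (h1.measure_pos volume h2).trans_le (measure_mono ?_)
  rintro y ⟨h3, h4, h5⟩
  exact ⟨h3.le, h4.le, h5.le⟩

theorem T0_fin : volume T0 ≠ ⊤ := by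
  have h1 : T0 = tri !₂[1, 0] 0 !₂[0, 1] := by
    ext x
    constructor
    · rintro ⟨h1, h2, h3⟩
      refine ⟨x 0, x 1, h1, h2, h3, ?_⟩
      ext i
      fin_cases i <;> simp
    · rintro ⟨a, b, ha, hb, hab, rfl⟩
      refine ⟨?_, ?_, ?_⟩ <;> simp [ha, hb, hab]
  rw [h1]
  exact (isCompact_tri _ _ _).measure_ne_top

/-- the area of a triangle -/
noncomputable def ar (p v q : Pl) : ℝ := |cross (p - v) (q - v)| * (volume T0).toReal

theorem ar_nonneg (p v q : Pl) : 0 ≤ ar p v q := mul_nonneg (abs_nonneg _) ENNReal.toReal_nonneg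

theorem real_tri (p v q : Pl) : volume.real (tri p v q) = ar p v q := by
  rw [measureReal_def, volume_tri, ENNReal.toReal_mul, ENNReal.toReal_ofReal (abs_nonneg _), ar]

theorem ar_one (p v q : Pl) : ar (mid v q) v p = ar p v q / 2 := by
  rw [ar, ar, cross_one]; ring

theorem ar_two (p v q : Pl) : ar q (mid v q) p = ar p v q / 2 := by
  rw [ar, ar, cross_two]; ring

theorem real_seg (p q : Pl) : volume.real (segment ℝ p q) = 0 := by
  have h1 : volume.real (tri p p q) = 0 := by
    rw [real_tri, ar]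
    unfold cross
    simp
  refine le_antisymm ?_ measureReal_nonneg
  rw [← h1]
  exact measureReal_mono (seg_sub_tri p p q) (isCompact_tri _ _ _).measure_ne_top

theorem real_cell (k : ℕ) : ∀ (j : ℕ) (p v q : Pl),
    volume.real (triC (cell k j p v q)) = ar p v q / 2 ^ k := by
  induction k with
  | zero =>
    intro j p v q
    rw [cell, triC, real_tri]; simp
  | succ k ih =>
    intro j p v q
    rw [cell]
    split_ifs
    · rw [ih, ar_one, pow_succ]; field_simp
    · rw [ih, ar_two, pow_succ]; field_simp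

theorem real_D_le (k : ℕ) : ∀ (j : ℕ) (p v q : Pl), j ≤ 2 ^ k →
    volume.real (D k j p v q) ≤ (1 - j / 2 ^ k) * ar p v q := by
  induction k with
  | zero =>
    intro j p v q h
    have h0 : j = 0 ∨ j = 1 := by
      rw [pow_zero] at h; omega
    rcases h0 with h0 | h0
    · subst h0
      rw [D_zero, real_tri]; simp
    · subst h0
      rw [D_end 0 1 _ _ _ (by simp), real_seg]; simp
  | succ k ih =>
    intro j p v q h
    rw [pow_succ] at h
    have h2k : (0 : ℝ) < 2 ^ k := by positivity
    by_cases h' : j < 2 ^ k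
    · rw [D_lt h']
      have h1 := ih j (mid v q) v p h'.le
      rw [ar_one] at h1
      have h2 := real_tri q (mid v q) p
      rw [ar_two] at h2
      have h3 := measureReal_union_le (μ := (volume : Measure Pl)) (D k j (mid v q) v p)
        (tri q (mid v q) p)
      have e : (1 - (j : ℝ) / 2 ^ (k + 1)) * ar p v q =
          (1 - (j : ℝ) / 2 ^ k) * (ar p v q / 2) + ar p v q / 2 := by
        rw [pow_succ]; field_simp; ring
      rw [e]
      linarith
    · rw [D_ge h']
      have h1 := ih (j - 2 ^ k) q (mid v q) p (by omega)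
      rw [ar_two] at h1
      refine h1.trans (le_of_eq ?_)
      rw [Nat.cast_sub (by omega), pow_succ]
      push_cast
      field_simp
      ring

theorem real_D_ge (k : ℕ) (j : ℕ) (p v q : Pl) (hj : j ≤ 2 ^ k) :
    (1 - j / 2 ^ k) * ar p v q ≤ volume.real (D k j p v q) := by
  induction j with
  | zero => rw [D_zero, real_tri]; simp
  | succ j ih =>
    have h1 := ih (by omega)
    have h2 : volume.real (D k j p v q) ≤ volume.real (D k (j + 1) p v q) +
        ar p v q / 2 ^ k := by
      rw [← real_cell k j p v q]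
      refine (measureReal_mono (D_step k j p v q (by omega)) ?_).trans
        (measureReal_union_le _ _)
      exact ((isCompact_D _ _ _ _ _).union (isCompact_tri _ _ _)).measure_ne_top
    have e : (1 - ((j + 1 : ℕ) : ℝ) / 2 ^ k) * ar p v q =
        (1 - (j : ℝ) / 2 ^ k) * ar p v q - ar p v q / 2 ^ k := by
      push_cast
      ring
    rw [e]
    linarith

/-! ### sizes of the cells -/

/-- size of a triangle -/
noncomputable def sz (c : Pl × Pl × Pl) : ℝ :=
  ‖c.1 - c.2.1‖ + 17 / 20 * ‖c.2.2 - c.2.1‖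

theorem sz_nonneg (c : Pl × Pl × Pl) : 0 ≤ sz c := by
  unfold sz; positivity

theorem sz_split (p v q : Pl) :
    sz (mid v q, v, p) + sz (q, mid v q, p) ≤ 2 * (17 / 20) * sz (p, v, q) := by
  unfold sz
  simp only
  have h1 : ‖mid v q - v‖ = ‖q - v‖ / 2 := by
    have : mid v q - v = (1 / 2 : ℝ) • (q - v) := by unfold mid; module
    rw [this, norm_smul]; norm_num; ring
  have h2 : ‖q - mid v q‖ = ‖q - v‖ / 2 := by
    have : q - mid v q = (1 / 2 : ℝ) • (q - v) := by unfold mid; module
    rw [this, norm_smul]; norm_num; ring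
  have h3 : ‖p - mid v q‖ ≤ ‖p - v‖ + ‖q - v‖ / 2 := by
    have : p - mid v q = (p - v) - (mid v q - v) := by abel
    rw [this, ← h1]
    exact norm_sub_le _ _
  have h4 := norm_nonneg (q - v)
  have h5 := norm_nonneg (p - v)
  linarith

theorem sum_sz (k : ℕ) : ∀ (p v q : Pl), ∑ j ∈ Finset.range (2 ^ k), sz (cell k j p v q) ≤
    (2 * (17 / 20)) ^ k * sz (p, v, q) := by
  induction k with
  | zero => intro p v q; simp [cell]
  | succ k ih =>
    intro p v q
    have h1 : ∑ j ∈ Finset.range (2 ^ (k + 1)), sz (cell (k + 1) j p v q) =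
        ∑ j ∈ Finset.range (2 ^ k), sz (cell k j (mid v q) v p) +
        ∑ j ∈ Finset.range (2 ^ k), sz (cell k j q (mid v q) p) := by
      rw [pow_succ, mul_two, Finset.sum_range_add]
      congr 1
      · refine Finset.sum_congr rfl fun j hj => ?_
        rw [cell, if_pos (Finset.mem_range.1 hj)]
      · refine Finset.sum_congr rfl fun j hj => ?_
        rw [cell, if_neg (by omega), Nat.add_sub_cancel_left]
    rw [h1]
    calc _ ≤ (2 * (17 / 20)) ^ k * sz (mid v q, v, p) +
          (2 * (17 / 20)) ^ k * sz (q, mid v q, p) := add_le_add (ih _ _ _) (ih _ _ _)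
      _ = (2 * (17 / 20)) ^ k * (sz (mid v q, v, p) + sz (q, mid v q, p)) := by ring
      _ ≤ (2 * (17 / 20)) ^ k * (2 * (17 / 20) * sz (p, v, q)) :=
          mul_le_mul_of_nonneg_left (sz_split p v q) (by positivity)
      _ = _ := by rw [pow_succ]; ring

theorem triC_sub_ball (c : Pl × Pl × Pl) : triC c ⊆ closedBall c.2.1 (2 * sz c) := by
  obtain ⟨p, v, q⟩ := c
  rintro x ⟨a, b, ha, hb, hab, rfl⟩
  unfold sz
  simp only
  rw [mem_closedBall, dist_eq_norm]
  have e : v + a • (p - v) + b • (q - v) - v = a • (p - v) + b • (q - v) := by abel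
  rw [e]
  have h1 : ‖a • (p - v)‖ ≤ ‖p - v‖ := by
    rw [norm_smul, Real.norm_of_nonneg ha]
    exact mul_le_of_le_one_left (norm_nonneg _) (by linarith)
  have h2 : ‖b • (q - v)‖ ≤ ‖q - v‖ := by
    rw [norm_smul, Real.norm_of_nonneg hb]
    exact mul_le_of_le_one_left (norm_nonneg _) (by linarith)
  have h3 := norm_add_le (a • (p - v)) (b • (q - v))
  have h4 := norm_nonneg (q - v)
  have h5 := norm_nonneg (p - v)
  linarith

/-! ### the limit family -/

/-- the cut triangle at the real time `s` -/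
def G (p v q : Pl) (s : ℝ) : Set Pl :=
  {x | x ∈ tri p v q ∧ ∀ k j : ℕ, (j : ℝ) < s * 2 ^ k → x ∈ D k j p v q}

theorem G_anti (p v q : Pl) : Antitone (G p v q) := by
  intro s s' h x hx
  refine ⟨hx.1, fun k j hj => hx.2 k j (hj.trans_le ?_)⟩
  exact mul_le_mul_of_nonneg_right h (by positivity)

theorem isCompact_G (p v q : Pl) (s : ℝ) : IsCompact (G p v q s) := by
  refine IsCompact.of_isClosed_subset (isCompact_tri p v q) ?_ fun x hx => hx.1
  have h1 : G p v q s = tri p v q ∩ ⋂ (k : ℕ) (j : ℕ) (_ : (j : ℝ) < s * 2 ^ k), D k j p v q := by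
    ext x
    simp only [G, mem_ofPred_eq, mem_inter_iff, mem_iInter]
  rw [h1]
  refine (isCompact_tri p v q).isClosed.inter ?_
  exact isClosed_iInter fun k => isClosed_iInter fun j => isClosed_iInter fun _ =>
    (isCompact_D k j p v q).isClosed

theorem convex_G (p v q : Pl) (s : ℝ) : Convex ℝ (G p v q s) := by
  intro x hx y hy a b ha hb hab
  exact ⟨convex_tri p v q hx.1 hy.1 ha hb hab, fun k j hj =>
    convex_D k j p v q (hx.2 k j hj) (hy.2 k j hj) ha hb hab⟩

theorem D_sub_G {p v q : Pl} {s : ℝ} {k j : ℕ} (h : s * 2 ^ k ≤ j) :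
    D k j p v q ⊆ G p v q s := by
  intro x hx
  refine ⟨D_sub_tri _ _ _ _ _ hx, fun k' j' hj' => ?_⟩
  refine D_mono ?_ p v q hx
  have h1 : (0 : ℝ) < 2 ^ k := by positivity
  have h2 : (0 : ℝ) < 2 ^ k' := by positivity
  have h3 : (j' : ℝ) * 2 ^ k ≤ j * 2 ^ k' := by
    calc (j' : ℝ) * 2 ^ k ≤ (s * 2 ^ k') * 2 ^ k := mul_le_mul_of_nonneg_right hj'.le h1.le
      _ = (s * 2 ^ k) * 2 ^ k' := by ring
      _ ≤ j * 2 ^ k' := mul_le_mul_of_nonneg_right h h2.le
  exact_mod_cast h3

theorem le_lim {a b c : ℝ} (h : ∀ k : ℕ, a ≤ b + c / 2 ^ k) : a ≤ b := by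
  have h1 : Tendsto (fun k : ℕ => b + c / 2 ^ k) atTop (𝓝 (b + 0)) := by
    refine tendsto_const_nhds.add ?_
    have := (tendsto_pow_atTop_nhds_zero_of_lt_one (r := (1 / 2 : ℝ)) (by norm_num)
      (by norm_num)).const_mul c
    rw [mul_zero] at this
    refine this.congr fun k => ?_
    rw [one_div, inv_pow]; rfl
  rw [add_zero] at h1
  exact ge_of_tendsto' h1 h

theorem real_G {p v q : Pl} {s : ℝ} (h0 : 0 ≤ s) (h1 : s ≤ 1) :
    volume.real (G p v q s) = (1 - s) * ar p v q := by
  have har := ar_nonneg p v q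
  apply le_antisymm
  · rcases eq_or_lt_of_le h0 with h | h
    · have h2 : volume.real (G p v q s) ≤ volume.real (tri p v q) :=
        measureReal_mono (fun x hx => hx.1) (isCompact_tri _ _ _).measure_ne_top
      rw [real_tri] at h2
      rw [← h]; rw [← h] at h2
      linarith
    · refine le_lim (c := ar p v q) fun k => ?_
      have hk : (0 : ℝ) < 2 ^ k := by positivity
      have hpos : 0 < s * 2 ^ k := by positivity
      set n := ⌈s * 2 ^ k⌉₊ with hn
      have hn1 : 0 < n := Nat.ceil_pos.2 hpos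
      obtain ⟨j, hj⟩ : ∃ j, n = j + 1 := ⟨n - 1, by omega⟩
      have hj1 : (j : ℝ) < s * 2 ^ k := by
        have := Nat.ceil_lt_add_one hpos.le
        rw [← hn, hj] at this
        push_cast at this
        linarith
      have hj2 : s * 2 ^ k ≤ j + 1 := by
        have := Nat.le_ceil (s * 2 ^ k)
        rw [← hn, hj] at this
        exact_mod_cast this
      have hj3 : j ≤ 2 ^ k := by
        have : (j : ℝ) ≤ 2 ^ k := hj1.le.trans (mul_le_of_le_one_left hk.le h1)
        exact_mod_cast this
      have h2 : volume.real (G p v q s) ≤ volume.real (D k j p v q) :=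
        measureReal_mono (fun x hx => hx.2 k j hj1) (isCompact_D _ _ _ _ _).measure_ne_top
      have h3 := real_D_le k j p v q hj3
      have h4 : (1 - (j : ℝ) / 2 ^ k) * ar p v q ≤ (1 - s + 1 / 2 ^ k) * ar p v q := by
        refine mul_le_mul_of_nonneg_right ?_ har
        have : s ≤ (j + 1) / 2 ^ k := by rw [le_div_iff₀ hk]; exact hj2
        have e : ((j : ℝ) + 1) / 2 ^ k = j / 2 ^ k + 1 / 2 ^ k := by ring
        rw [e] at this
        linarith
      calc _ ≤ _ := h2
        _ ≤ _ := h3
        _ ≤ _ := h4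
        _ = _ := by ring
  · refine le_lim (c := ar p v q) fun k => ?_
    have hk : (0 : ℝ) < 2 ^ k := by positivity
    have hnn : 0 ≤ s * 2 ^ k := by positivity
    set j := ⌈s * 2 ^ k⌉₊ with hj
    have hj1 : s * 2 ^ k ≤ j := Nat.le_ceil _
    have hj2 : (j : ℝ) < s * 2 ^ k + 1 := Nat.ceil_lt_add_one hnn
    have hj3 : j ≤ 2 ^ k := by
      rw [hj, Nat.ceil_le]
      push_cast
      exact mul_le_of_le_one_left hk.le h1
    have h2 : volume.real (D k j p v q) ≤ volume.real (G p v q s) :=
      measureReal_mono (D_sub_G hj1) (isCompact_G _ _ _ _).measure_ne_top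
    have h3 := real_D_ge k j p v q hj3
    have h4 : (1 - s - 1 / 2 ^ k) * ar p v q ≤ (1 - (j : ℝ) / 2 ^ k) * ar p v q := by
      refine mul_le_mul_of_nonneg_right ?_ har
      have : (j : ℝ) / 2 ^ k ≤ s + 1 / 2 ^ k := by
        rw [div_le_iff₀ hk]
        have e : (s + 1 / 2 ^ k) * 2 ^ k = s * 2 ^ k + 1 := by field_simp
        rw [e]; exact hj2.le
      linarith
    have h5 : (1 - s) * ar p v q = (1 - s - 1 / 2 ^ k) * ar p v q + ar p v q / 2 ^ k := by ring
    rw [h5]
    linarith

/-- the bad times for the radius `ρ` -/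
def Nb (p v q : Pl) (ρ : ℝ) : Set ℝ :=
  {s | s ∈ Ioo (0 : ℝ) 1 ∧ ∀ k : ℕ, ρ < sz (cell k ⌊s * 2 ^ k⌋₊ p v q)}

theorem Nb_null (p v q : Pl) {ρ : ℝ} (hρ : 0 < ρ) : volume (Nb p v q ρ) = 0 := by
  classical
  have h1 : ∀ k : ℕ, volume (Nb p v q ρ) ≤ ENNReal.ofReal ((17 / 20) ^ k * (sz (p, v, q) / ρ)) := by
    intro k
    have hk : (0 : ℝ) < 2 ^ k := by positivity
    set B := (Finset.range (2 ^ k)).filter fun j => ρ < sz (cell k j p v q) with hB
    have hsub : Nb p v q ρ ⊆ ⋃ j ∈ B, Icc ((j : ℝ) / 2 ^ k) (((j : ℝ) + 1) / 2 ^ k) := by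
      rintro s ⟨⟨hs0, hs1⟩, hs⟩
      have hnn : 0 ≤ s * 2 ^ k := by positivity
      simp only [mem_iUnion, exists_prop]
      refine ⟨⌊s * 2 ^ k⌋₊, ?_, ?_, ?_⟩
      · rw [hB, Finset.mem_filter, Finset.mem_range]
        refine ⟨?_, hs k⟩
        rw [Nat.floor_lt hnn]
        push_cast
        exact mul_lt_of_lt_one_left hk hs1
      · rw [div_le_iff₀ hk]; exact Nat.floor_le hnn
      · rw [le_div_iff₀ hk]; exact (Nat.lt_floor_add_one _).le
    calc volume (Nb p v q ρ)
        ≤ ∑ j ∈ B, volume (Icc ((j : ℝ) / 2 ^ k) (((j : ℝ) + 1) / 2 ^ k)) :=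
          (measure_mono hsub).trans (measure_biUnion_finset_le _ _)
      _ = ∑ _j ∈ B, ENNReal.ofReal (1 / 2 ^ k) := by
          refine Finset.sum_congr rfl fun j _ => ?_
          rw [Real.volume_Icc]; congr 1; ring
      _ ≤ ∑ j ∈ B, ENNReal.ofReal (sz (cell k j p v q) / ρ / 2 ^ k) := by
          refine Finset.sum_le_sum fun j hj => ENNReal.ofReal_le_ofReal ?_
          refine div_le_div_of_nonneg_right ?_ hk.le
          rw [one_le_div hρ]
          rw [hB, Finset.mem_filter] at hj
          exact hj.2.le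
      _ ≤ ∑ j ∈ Finset.range (2 ^ k), ENNReal.ofReal (sz (cell k j p v q) / ρ / 2 ^ k) :=
          Finset.sum_le_sum_of_subset (Finset.filter_subset _ _)
      _ = ENNReal.ofReal (∑ j ∈ Finset.range (2 ^ k), sz (cell k j p v q) / ρ / 2 ^ k) := by
          rw [ENNReal.ofReal_sum_of_nonneg]
          intro j _
          have := sz_nonneg (cell k j p v q)
          positivity
      _ ≤ ENNReal.ofReal ((17 / 20) ^ k * (sz (p, v, q) / ρ)) := by
          refine ENNReal.ofReal_le_ofReal ?_
          have h2 := sum_sz k p v q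
          rw [← Finset.sum_div, ← Finset.sum_div, mul_pow] at *
          rw [div_div, div_le_iff₀ (by positivity)]
          refine h2.trans (le_of_eq ?_)
          field_simp
  have h2 : Tendsto (fun k : ℕ => ENNReal.ofReal ((17 / 20) ^ k * (sz (p, v, q) / ρ))) atTop
      (𝓝 0) := by
    have h3 := (tendsto_pow_atTop_nhds_zero_of_lt_one (r := (17 / 20 : ℝ)) (by norm_num)
      (by norm_num)).mul_const (sz (p, v, q) / ρ)
    rw [zero_mul] at h3
    have := ENNReal.tendsto_ofReal h3
    rwa [ENNReal.ofReal_zero] at this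
  exact le_antisymm (ge_of_tendsto' h2 h1) zero_le

/-- local motion -/
theorem local_motion {p v q : Pl} {s : ℝ} (h0 : 0 < s) (h1 : s < 1) (k : ℕ)
    (hd : (⌊s * 2 ^ k⌋₊ : ℝ) ≠ s * 2 ^ k) : ∃ s1 s2, 0 ≤ s1 ∧ s1 < s ∧ s < s2 ∧ s2 ≤ 1 ∧
    G p v q s1 \ G p v q s2 ⊆ closedBall (cell k ⌊s * 2 ^ k⌋₊ p v q).2.1
      (2 * sz (cell k ⌊s * 2 ^ k⌋₊ p v q)) := by
  have hk : (0 : ℝ) < 2 ^ k := by positivity
  have hnn : 0 ≤ s * 2 ^ k := by positivity
  set j := ⌊s * 2 ^ k⌋₊ with hj
  have hj1 : (j : ℝ) < s * 2 ^ k := lt_of_le_of_ne (Nat.floor_le hnn) hd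
  have hj2 : s * 2 ^ k < j + 1 := Nat.lt_floor_add_one _
  have hj3 : j < 2 ^ k := by
    have : (j : ℝ) < 2 ^ k := hj1.trans (mul_lt_of_lt_one_left hk h1)
    exact_mod_cast this
  have e1 : (j : ℝ) / 2 ^ k < s := by rw [div_lt_iff₀ hk]; exact hj1
  have e2 : s < ((j : ℝ) + 1) / 2 ^ k := by rw [lt_div_iff₀ hk]; exact hj2
  have e3 : ((j : ℝ) + 1) / 2 ^ k ≤ 1 := by
    rw [div_le_one hk]
    exact_mod_cast hj3
  have e4 : 0 ≤ (j : ℝ) / 2 ^ k := by positivity
  refine ⟨((j : ℝ) / 2 ^ k + s) / 2, (s + ((j : ℝ) + 1) / 2 ^ k) / 2, by linarith, by linarith,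
    by linarith, by linarith, ?_⟩
  rintro x ⟨hx1, hx2⟩
  have h3 : x ∈ D k j p v q := by
    refine hx1.2 k j ?_
    rw [← div_lt_iff₀ hk]
    linarith
  have h4 : x ∉ D k (j + 1) p v q := by
    intro h5
    refine hx2 (D_sub_G ?_ h5)
    rw [← le_div_iff₀ hk]
    push_cast
    linarith
  rcases D_step k j p v q hj3 h3 with h5 | h5
  · exact absurd h5 h4
  · exact triC_sub_ball _ h5

/-- the family -/
noncomputable def Kf (p v q : Pl) (r : ℝ) : Set Pl :=
  if 1 < r then ∅ else G p v q ((max r 0) ^ 2)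

theorem good_Kf {p v q : Pl} (har : ar p v q = Real.pi) : Good 1 (Kf p v q) := by
  have hle : ∀ {r : ℝ}, r ≤ 1 → Kf p v q r = G p v q ((max r 0) ^ 2) := by
    intro r hr
    rw [Kf, if_neg (not_lt.2 hr)]
  have hgt : ∀ {r : ℝ}, 1 < r → Kf p v q r = ∅ := by
    intro r hr
    rw [Kf, if_pos hr]
  refine ⟨?_, ?_, ?_, ?_, ?_, ?_, ?_, ?_⟩
  · intro r
    rcases lt_or_ge 1 r with h | h
    · rw [hgt h]; exact isCompact_empty
    · rw [hle h]; exact isCompact_G _ _ _ _
  · intro r
    rcases lt_or_ge 1 r with h | h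
    · rw [hgt h]; exact convex_empty
    · rw [hle h]; exact convex_G _ _ _ _
  · intro r r' hr
    rcases lt_or_ge 1 r' with h | h
    · rw [hgt h]; exact empty_subset _
    · rw [hle h, hle (hr.trans h)]
      apply G_anti
      exact pow_le_pow_left₀ (le_max_right _ _) (max_le_max_right _ hr) 2
  · intro r x hx
    rcases lt_or_ge 1 r with h | h
    · have h1 := hx ((1 + r) / 2) (by linarith)
      rw [hgt (by linarith)] at h1
      exact h1.elim
    · rw [hle h]
      have h1 := hx (r - 1) (by linarith)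
      rw [hle (by linarith)] at h1
      refine ⟨h1.1, fun k j hj => ?_⟩
      have hk : (0 : ℝ) < 2 ^ k := by positivity
      have hj0 : (0 : ℝ) ≤ j := Nat.cast_nonneg j
      have hr : 0 < r := by
        by_contra hr
        rw [max_eq_right (not_lt.1 hr)] at hj
        simp at hj
        linarith
      rw [max_eq_left hr.le] at hj
      have h2 : √((j : ℝ) / 2 ^ k) < r := by
        rw [Real.sqrt_lt' hr, div_lt_iff₀ hk]
        exact hj
      have h3 := Real.sqrt_nonneg ((j : ℝ) / 2 ^ k)
      set t := √((j : ℝ) / 2 ^ k) with ht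
      have h4 := hx ((t + r) / 2) (by linarith)
      rw [hle (by linarith)] at h4
      refine h4.2 k j ?_
      rw [max_eq_left (by linarith)]
      rw [← div_lt_iff₀ hk, ← Real.sq_sqrt (show 0 ≤ (j : ℝ) / 2 ^ k by positivity), ← ht]
      exact pow_lt_pow_left₀ (by linarith) h3 (by norm_num)
  · intro r hr
    rw [hle hr]
    refine ⟨p, ?_, fun k j _ => seg_sub_D _ _ _ _ _ (left_mem_segment ℝ p q)⟩
    exact seg_sub_tri _ _ _ (left_mem_segment ℝ p q)
  · intro r hr
    exact hgt hr
  · rintro r ⟨h0, h1⟩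
    rw [hle h1, max_eq_left h0]
    have h2 := real_G (p := p) (v := v) (q := q) (s := r ^ 2) (by positivity)
      (pow_le_one₀ h0 h1)
    rw [har, measureReal_def] at h2
    rw [← ENNReal.ofReal_toReal (isCompact_G p v q (r ^ 2)).measure_ne_top, h2, mul_comm]
  · -- the bad times
    set Bad : Set ℝ := (⋃ n : ℕ, Nb p v q (1 / (n + 1))) ∪
      (Ioo (0 : ℝ) 1 ∩ range fun kj : ℕ × ℕ => (kj.2 : ℝ) / 2 ^ kj.1) with hBad
    have hB0 : volume Bad = 0 := by
      rw [hBad, measure_union_null_iff]
      refine ⟨?_, ?_⟩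
      · rw [measure_iUnion_null_iff]
        intro n
        exact Nb_null p v q (by positivity)
      · exact ((countable_range _).mono inter_subset_right).measure_zero volume
    have hBs : Bad ⊆ Ioo 0 1 := by
      rw [hBad]
      refine union_subset ?_ inter_subset_left
      exact iUnion_subset fun n x hx => hx.1
    have hI : volume (Real.sqrt '' Bad) = 0 := by
      refine addHaar_image_eq_zero_of_differentiableOn_of_addHaar_eq_zero volume ?_ hB0
      intro x hx
      exact ((Real.hasDerivAt_sqrt (hBs hx).1.ne').differentiableAt).differentiableWithinAt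
    have hae : ∀ᵐ r : ℝ, r ∉ Real.sqrt '' Bad := by
      rw [ae_iff]
      have e : {a : ℝ | ¬ a ∉ Real.sqrt '' Bad} = Real.sqrt '' Bad := by
        ext a
        exact not_not
      rw [e]
      exact hI
    filter_upwards [hae] with r hr hr01 ρ hρ
    obtain ⟨hr0, hr1⟩ := hr01
    have hs : r ^ 2 ∉ Bad := by
      intro h
      exact hr ⟨r ^ 2, h, Real.sqrt_sq hr0.le⟩
    have hs0 : 0 < r ^ 2 := by positivity
    have hs1 : r ^ 2 < 1 := pow_lt_one₀ hr0.le hr1 (by norm_num)
    obtain ⟨n, hn⟩ := exists_nat_one_div_lt (show 0 < ρ / 2 by positivity)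
    have hNb : r ^ 2 ∉ Nb p v q (1 / (n + 1)) := by
      intro h
      exact hs (Or.inl (mem_iUnion.2 ⟨n, h⟩))
    have h2 : ∃ k : ℕ, sz (cell k ⌊r ^ 2 * 2 ^ k⌋₊ p v q) ≤ 1 / (n + 1) := by
      by_contra h3
      push Not at h3
      exact hNb ⟨⟨hs0, hs1⟩, h3⟩
    obtain ⟨k, hk⟩ := h2
    have hd : (⌊r ^ 2 * 2 ^ k⌋₊ : ℝ) ≠ r ^ 2 * 2 ^ k := by
      intro h3
      apply hs
      right
      refine ⟨⟨hs0, hs1⟩, ⟨(k, ⌊r ^ 2 * 2 ^ k⌋₊), ?_⟩⟩
      simp only
      rw [h3]
      field_simp
    obtain ⟨s1, s2, h3, h4, h5, h6, h7⟩ := local_motion (p := p) (v := v) (q := q) hs0 hs1 k hd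
    refine ⟨√s1, √s2, ?_, ?_, fun _ => (cell k ⌊r ^ 2 * 2 ^ k⌋₊ p v q).2.1, ?_⟩
    · rw [Real.sqrt_lt' hr0]; exact h4
    · exact Real.lt_sqrt_of_sq_lt h5
    · have e1 : √s1 ≤ 1 := Real.sqrt_le_one.2 (by linarith)
      have e2 : √s2 ≤ 1 := Real.sqrt_le_one.2 h6
      rw [hle e1, hle e2, max_eq_left (Real.sqrt_nonneg _), max_eq_left (Real.sqrt_nonneg _),
        Real.sq_sqrt h3, Real.sq_sqrt (by linarith)]
      refine h7.trans ?_
      refine subset_iUnion_of_subset 0 ?_
      refine closedBall_subset_closedBall ?_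
      linarith

end Pool.Agent.R921.SP.PD

namespace Pool.Agent.R921.SP

open PD

theorem stmtD : StmtD := by
  set a0 : ℝ := (volume T0).toReal with ha0
  have ha : 0 < a0 := ENNReal.toReal_pos T0_pos.ne' T0_fin
  set c : ℝ := √(Real.pi / a0) with hc
  refine ⟨Kf !₂[c, 0] 0 !₂[0, c], good_Kf ?_⟩
  rw [ar, ← ha0]
  have h1 : cross (!₂[c, 0] - 0) (!₂[0, c] - 0) = c * c := by
    unfold cross
    simp
  rw [h1, hc, Real.mul_self_sqrt (by positivity), abs_of_pos (by positivity)]
  field_simp

end Pool.Agent.R921.SP
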